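import Mathlib

namespace Pool.Agent.Q183.GT

open scoped BigOperators

/-- A nondegenerate solution of the Riccati type system is algebraic. -/
theorem alg_of_system {K L : Type} [Field K] [CharZero K] [Field L] [Algebra K L] {J : Type}
    [Fintype J] [DecidableEq J] (z : K) (w : J → K) (c : J → J → K) (g : J → L)
    (h : ∀ j, g j * (algebraMap K L (w j) - algebraMap K L z
      - ∑ k, algebraMap K L (c j k) * g k) = 1)
    (hdet : (1 - Matrix.of (fun j k => g j ^ 2 * algebraMap K L (c j k)) :
      Matrix J J L).det ≠ 0) :
    ∀ j, IsAlgebraic K (g j) := by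
  classical
  set L' := IntermediateField.adjoin K (Set.range g) with hL'
  have hmem : ∀ j, g j ∈ L' := fun j => IntermediateField.subset_adjoin K _ ⟨j, rfl⟩
  let g' : J → L' := fun j => ⟨g j, hmem j⟩
  have h' : ∀ j, g' j * (algebraMap K L' (w j) - algebraMap K L' z
      - ∑ k, algebraMap K L' (c j k) * g' k) = 1 := by
    intro j
    apply (algebraMap L' L).injective
    simpa [map_mul, map_sub, map_sum, ← IsScalarTower.algebraMap_apply] using h j
  let D := KaehlerDifferential.D K L'
  let M' : Matrix J J L' := 1 - Matrix.of (fun j k => g' j ^ 2 * algebraMap K L' (c j k))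
  have hM' : M'.det ≠ 0 := by
    intro h0
    apply hdet
    have h1 : (algebraMap L' L) M'.det = 0 := by rw [h0, map_zero]
    rw [RingHom.map_det] at h1
    rw [← h1]
    congr 1
    ext j k
    simp only [M', RingHom.mapMatrix_apply, Matrix.map_apply, Matrix.sub_apply, Matrix.of_apply,
      map_sub, map_mul, map_pow]
    congr 1
    · by_cases hjk : j = k
      · subst hjk; simp
      · simp [Matrix.one_apply_ne hjk]
  have hrel : ∀ j, ∑ k, M' j k • D (g' k) = 0 := by
    intro j
    have e1 := congrArg D (h' j)
    rw [Derivation.leibniz, Derivation.map_one_eq_zero, map_sub, map_sub, map_sum,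
      Derivation.map_algebraMap, Derivation.map_algebraMap] at e1
    simp only [Derivation.leibniz, Derivation.map_algebraMap, smul_zero, add_zero, sub_self,
      zero_sub] at e1
    have e2 := congrArg (fun x => g' j • x) e1
    simp only [smul_add, smul_zero, smul_smul, h' j, one_smul] at e2
    simp only [M', Matrix.sub_apply, Matrix.of_apply, sub_smul, Finset.sum_sub_distrib]
    have e3 : ∑ k, (1 : Matrix J J L') j k • D (g' k) = D (g' j) := by
      rw [Finset.sum_eq_single j]
      · simp
      · intro b _ hb
        simp [Matrix.one_apply_ne (Ne.symm hb)]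
      · simp
    rw [e3]
    rw [smul_neg, Finset.smul_sum] at e2
    rw [sub_eq_add_neg, add_comm]
    rw [← e2]
    congr 1
    congr 1
    refine Finset.sum_congr rfl fun k _ => ?_
    rw [smul_smul]
    congr 1
    ring
  have hD0 : ∀ i, D (g' i) = 0 := by
    intro i
    have e1 : ∑ j, M'.adjugate i j • ∑ k, M' j k • D (g' k) = 0 := by
      simp [hrel]
    simp only [Finset.smul_sum, smul_smul] at e1
    rw [Finset.sum_comm] at e1
    simp only [← Finset.sum_smul] at e1
    have e2 : ∀ k, ∑ j, M'.adjugate i j * M' j k = M'.det * (1 : Matrix J J L') i k := by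
      intro k
      have := congrFun (congrFun (Matrix.adjugate_mul M') i) k
      simpa [Matrix.mul_apply] using this
    simp only [e2] at e1
    rw [Finset.sum_eq_single i] at e1
    · simpa [hM'] using e1
    · intro b _ hb
      simp [Matrix.one_apply_ne (Ne.symm hb)]
    · simp
  have hall : ∀ x : L', D x = 0 := by
    rintro ⟨x, hx⟩
    refine IntermediateField.adjoin_induction (F := K) (s := Set.range g)
      (p := fun x hx => D (⟨x, hx⟩ : L') = 0) ?_ ?_ ?_ ?_ ?_ hx
    · rintro x ⟨j, rfl⟩
      exact hD0 j
    · intro x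
      exact Derivation.map_algebraMap D x
    · intro x y hx hy h1 h2
      have : (⟨x + y, add_mem hx hy⟩ : L') = ⟨x, hx⟩ + ⟨y, hy⟩ := rfl
      rw [this, map_add, h1, h2, add_zero]
    · intro x hx h1
      have : (⟨x⁻¹, inv_mem hx⟩ : L') = (⟨x, hx⟩ : L')⁻¹ := rfl
      rw [this, Derivation.leibniz_inv, h1, smul_zero]
    · intro x y hx hy h1 h2
      have : (⟨x * y, mul_mem hx hy⟩ : L') = ⟨x, hx⟩ * ⟨y, hy⟩ := rfl
      rw [this, Derivation.leibniz, h1, h2, smul_zero, smul_zero, add_zero]
  have hunr : Algebra.FormallyUnramified K L' := by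
    constructor
    rw [← Submodule.subsingleton_iff L', ← subsingleton_iff_bot_eq_top,
      ← KaehlerDifferential.span_range_derivation]
    symm
    rw [Submodule.span_eq_bot]
    rintro _ ⟨x, rfl⟩
    exact hall x
  have hfin : Algebra.EssFiniteType K L' := by
    rw [IntermediateField.essFiniteType_iff]
    exact ⟨(Set.finite_range g).toFinset, by rw [Set.Finite.coe_toFinset]⟩
  have hsep : Algebra.IsSeparable K L' := Algebra.FormallyUnramified.isSeparable K L'
  intro j
  have h1 : IsAlgebraic K (g' j) := (Algebra.IsSeparable.isIntegral K (g' j)).isAlgebraic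
  exact (isAlgebraic_algebraMap_iff (algebraMap L' L).injective).mpr h1

end Pool.Agent.Q183.GT
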