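import Mathlib

namespace Pool.Agent.Q183.GT

open Filter Topology Set Polynomial

/-- The open upper half plane. -/
def UH : Set ℂ := {z | 0 < z.im}

theorem isOpen_UH : IsOpen UH := isOpen_lt continuous_const Complex.continuous_im

theorem convex_UH : Convex ℝ UH := convex_halfSpace_im_gt 0

theorem mem_closure_UH (E : ℝ) : (E : ℂ) ∈ closure UH := by
  have : closure UH = {z : ℂ | 0 ≤ z.im} := Complex.closure_setOf_lt_im 0
  rw [this]
  simp

theorem neBot_UH (E : ℝ) : (𝓝[UH] (E : ℂ)).NeBot := mem_closure_iff_nhdsWithin_neBot.mp (mem_closure_UH E)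

theorem continuous_bieval (Q : Polynomial (Polynomial ℂ)) :
    Continuous fun p : ℂ × ℂ => (Q.map (evalRingHom p.1)).eval p.2 := by
  have : (fun p : ℂ × ℂ => (Q.map (evalRingHom p.1)).eval p.2)
      = fun p : ℂ × ℂ => ∑ i ∈ Finset.range (Q.natDegree + 1), (Q.coeff i).eval p.1 * p.2 ^ i := by
    funext p
    rw [eval_map, eval₂_eq_sum_range]
    simp
  rw [this]
  refine continuous_finset_sum _ fun i _ => ?_
  exact ((Polynomial.continuous _).comp continuous_fst).mul (continuous_snd.pow i)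

theorem boundary_limit {f : ℂ → ℂ} (hf : ContinuousOn f UH) (B : ℝ)
    (hB : ∀ z ∈ UH, ‖f z‖ ≤ B) (P : Polynomial (Polynomial ℂ)) (hP : P ≠ 0)
    (hPf : ∀ z ∈ UH, (P.map (evalRingHom z)).eval (f z) = 0) (E : ℝ) :
    ∃ l, Tendsto f (𝓝[UH] (E : ℂ)) (𝓝 l) := by
  classical
  have hnu : ¬ IsUnit (C (X - C (E : ℂ)) : Polynomial (Polynomial ℂ)) := by
    intro h
    have h1 : IsUnit (X - C (E : ℂ)) := by
      have := h.map (evalRingHom (0 : Polynomial ℂ))
      simpa using this
    exact Polynomial.not_isUnit_X_sub_C _ h1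
  obtain ⟨n, Q, hQ, hPQ⟩ := WfDvdMonoid.max_power_factor' hP hnu
  have hQE : Q.map (evalRingHom (E : ℂ)) ≠ 0 := by
    intro h0
    apply hQ
    rw [C_dvd_iff_dvd_coeff]
    intro i
    rw [dvd_iff_isRoot]
    have := congrArg (fun p => p.coeff i) h0
    simpa [IsRoot] using this
  have hQf : ∀ z ∈ UH, (Q.map (evalRingHom z)).eval (f z) = 0 := by
    intro z hz
    have h1 := hPf z hz
    rw [hPQ] at h1
    simp only [Polynomial.map_mul, Polynomial.map_pow, map_C, eval_mul, eval_pow, eval_C] at h1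
    have h2 : (evalRingHom z) (X - C (E : ℂ)) ≠ 0 := by
      simp only [coe_evalRingHom, eval_sub, eval_X, eval_C]
      intro h3
      have h4 : z = E := by linear_combination h3
      have h5 : (0 : ℝ) < z.im := hz
      rw [h4] at h5
      simp at h5
    rcases mul_eq_zero.mp h1 with h | h
    · exact absurd h (pow_ne_zero _ h2)
    · exact h
  set q := Q.map (evalRingHom (E : ℂ)) with hq
  have hclus : ∀ a, MapClusterPt a (𝓝[UH] (E : ℂ)) f → q.eval a = 0 := by
    intro a ha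
    by_contra hne
    have hc := (continuous_bieval Q).continuousAt (x := ((E : ℂ), a))
    have h1 : ∀ᶠ p : ℂ × ℂ in 𝓝 ((E : ℂ), a), (Q.map (evalRingHom p.1)).eval p.2 ≠ 0 :=
      hc.eventually_ne hne
    rw [nhds_prod_eq] at h1
    obtain ⟨s, hs, t, ht, hst⟩ := Filter.mem_prod_iff.mp h1
    have h2 : ∃ᶠ z in 𝓝[UH] (E : ℂ), f z ∈ t := ha.frequently ht
    have h3 : ∀ᶠ z in 𝓝[UH] (E : ℂ), z ∈ s ∧ z ∈ UH :=
      Filter.Eventually.and (mem_nhdsWithin_of_mem_nhds hs) self_mem_nhdsWithin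
    obtain ⟨z, hz1, hz2, hz3⟩ := (h2.and_eventually h3).exists
    exact hst (Set.mk_mem_prod hz2 hz1) (hQf z hz3)
  haveI := neBot_UH E
  have hK : IsCompact (Metric.closedBall (0 : ℂ) B) := isCompact_closedBall _ _
  have hev : ∀ᶠ z in 𝓝[UH] (E : ℂ), f z ∈ Metric.closedBall (0 : ℂ) B := by
    filter_upwards [self_mem_nhdsWithin] with z hz
    simpa using hB z hz
  obtain ⟨a, -, ha⟩ := hK.exists_mapClusterPt_of_frequently hev.frequently
  refine ⟨a, hK.tendsto_nhds_of_unique_mapClusterPt hev ?_⟩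
  intro b _ hb
  by_contra hba
  -- separation radius
  have hfin : (q.roots.toFinset : Set ℂ).Finite := Finset.finite_toSet _
  obtain ⟨ε, hε, hsep⟩ : ∃ ε > 0, ∀ c ∈ q.roots.toFinset, c ≠ a → ε < dist c a := by
    by_cases hS : ((q.roots.toFinset.filter (fun c => c ≠ a)).image (fun c => dist c a)).Nonempty
    · set S := (q.roots.toFinset.filter (fun c => c ≠ a)).image (fun c => dist c a)
      have hmin := Finset.min'_mem S hS
      obtain ⟨c, hc, hc2⟩ := Finset.mem_image.mp hmin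
      have hpos : 0 < S.min' hS := by
        rw [← hc2]
        exact dist_pos.mpr (Finset.mem_filter.mp hc).2
      refine ⟨S.min' hS / 2, by positivity, fun c hc hca => ?_⟩
      have : S.min' hS ≤ dist c a := Finset.min'_le _ _
        (Finset.mem_image.mpr ⟨c, Finset.mem_filter.mpr ⟨hc, hca⟩, rfl⟩)
      linarith
    · refine ⟨1, one_pos, fun c hc hca => ?_⟩
      exact absurd ⟨dist c a, Finset.mem_image.mpr
        ⟨c, Finset.mem_filter.mpr ⟨hc, hca⟩, rfl⟩⟩ hS
  have hroot : ∀ c, MapClusterPt c (𝓝[UH] (E : ℂ)) f → c ∈ q.roots.toFinset := by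
    intro c hc
    rw [Multiset.mem_toFinset, mem_roots hQE]
    exact hclus c hc
  have hsph : ∀ᶠ z in 𝓝[UH] (E : ℂ), dist (f z) a ≠ ε := by
    by_contra hcon
    rw [Filter.not_eventually] at hcon
    have hfr : ∃ᶠ z in 𝓝[UH] (E : ℂ), f z ∈ Metric.sphere a ε := by
      refine hcon.mono fun z hz => ?_
      rw [Metric.mem_sphere]
      exact not_not.mp hz
    obtain ⟨c, hc, hc2⟩ := (isCompact_sphere a ε).exists_mapClusterPt_of_frequently hfr
    have hd : dist c a = ε := hc
    have hca : c ≠ a := by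
      rintro rfl
      rw [dist_self] at hd
      linarith
    have := hsep c (hroot c hc2) hca
    linarith
  obtain ⟨r, hr, hball⟩ : ∃ r > 0, ∀ z ∈ Metric.ball (E : ℂ) r ∩ UH, dist (f z) a ≠ ε := by
    obtain ⟨r, hr, h⟩ := Metric.mem_nhdsWithin_iff.mp hsph
    exact ⟨r, hr, fun z hz => h hz⟩
  have hconn : IsPreconnected (Metric.ball (E : ℂ) r ∩ UH) :=
    ((convex_ball _ _).inter convex_UH).isPreconnected
  have hcont : ContinuousOn (fun z => dist (f z) a) (Metric.ball (E : ℂ) r ∩ UH) :=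
    (continuous_id.dist continuous_const).comp_continuousOn (hf.mono Set.inter_subset_right)
  have hnb : Metric.ball (E : ℂ) r ∩ UH ∈ 𝓝[UH] (E : ℂ) :=
    Filter.inter_mem (mem_nhdsWithin_of_mem_nhds (Metric.ball_mem_nhds _ hr)) self_mem_nhdsWithin
  obtain ⟨z1, hz1, hz1'⟩ := ((ha.frequently (Metric.ball_mem_nhds a hε)).and_eventually hnb).exists
  have hbε : ε < dist b a := hsep b (hroot b hb) hba
  have hnear : Metric.ball b (dist b a - ε) ∈ 𝓝 b := Metric.ball_mem_nhds _ (by linarith)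
  obtain ⟨z2, hz2, hz2'⟩ := ((hb.frequently hnear).and_eventually hnb).exists
  have h1 : dist (f z1) a ≤ ε := le_of_lt hz1
  have h2 : ε ≤ dist (f z2) a := by
    have h3 : dist (f z2) b < dist b a - ε := hz2
    have h4 := dist_triangle b (f z2) a
    rw [dist_comm b (f z2)] at h4
    linarith
  obtain ⟨z, hz, hz'⟩ := hconn.intermediate_value hz1' hz2' hcont ⟨h1, h2⟩
  exact hball z hz hz'

/-- Continuous boundary values. -/
def HasBdry (f : ℂ → ℂ) : Prop := ∀ E : ℝ, ∃ l, Tendsto f (𝓝[UH] (E : ℂ)) (𝓝 l)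

theorem HasBdry.exists_continuous {f : ℂ → ℂ} (h : HasBdry f) :
    ∃ g : ℝ → ℂ, Continuous g ∧ ∀ E : ℝ, Tendsto f (𝓝[UH] (E : ℂ)) (𝓝 (g E)) := by
  have hsub : (Set.range fun E : ℝ => (E : ℂ)) ⊆ closure UH := by
    rintro _ ⟨E, rfl⟩
    exact mem_closure_UH E
  have hc : ContinuousOn (extendFrom UH f) (Set.range fun E : ℝ => (E : ℂ)) := by
    refine continuousOn_extendFrom hsub ?_
    rintro _ ⟨E, rfl⟩
    exact h E
  refine ⟨fun E => extendFrom UH f E, ?_, fun E => tendsto_extendFrom (h E)⟩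
  exact hc.comp_continuous Complex.continuous_ofReal fun E => ⟨E, rfl⟩

theorem tendsto_vertical (E : ℝ) :
    Tendsto (fun η : ℝ => (E : ℂ) + η * Complex.I) (𝓝[>] 0) (𝓝[UH] (E : ℂ)) := by
  rw [tendsto_nhdsWithin_iff]
  constructor
  · have : Tendsto (fun η : ℝ => (E : ℂ) + η * Complex.I) (𝓝 0) (𝓝 ((E : ℂ) + (0 : ℝ) * Complex.I)) := by
      apply Continuous.tendsto
      fun_prop
    simp only [Complex.ofReal_zero, zero_mul, add_zero] at this
    exact this.mono_left nhdsWithin_le_nhds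
  · filter_upwards [self_mem_nhdsWithin] with η hη
    show 0 < ((E : ℂ) + η * Complex.I).im
    simpa using hη

end Pool.Agent.Q183.GT
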