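import Mathlib

namespace Pool.Agent.Q183.GT

open Filter Topology Set
open scoped InnerProductSpace ComplexConjugate

/-- A rooted tree on the vertex set `V`, given by the root and the parent map: every vertex
reaches the root after finitely many steps. -/
structure RTree (V : Type) where
  root : V
  parent : V → V
  parent_root : parent root = root
  reach : ∀ x, ∃ n : ℕ, parent^[n] x = root

/-- `y` is a child of `x`. -/
def RTree.IsChild {V : Type} (τ : RTree V) (y x : V) : Prop := y ≠ τ.root ∧ τ.parent y = x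

/-- Adjacency of the tree. -/
def RTree.Adj {V : Type} (τ : RTree V) (x y : V) : Prop := τ.IsChild y x ∨ τ.IsChild x y

/-- `V_x`: the vertex `x` and all its descendants. -/
def RTree.below {V : Type} (τ : RTree V) (x : V) : Set V := {y | ∃ n : ℕ, τ.parent^[n] y = x}

/-- `(V, a)` is the tree `T(M, a root)`: every vertex of label `k` has exactly `M k l` children of
label `l`. -/
def IsConeTree {V A : Type} (τ : RTree V) (a : V → A) (M : A → A → ℕ) : Prop :=
  ∀ x l, {y | τ.IsChild y x ∧ a y = l}.encard = M (a x) l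

variable {H : Type*} [NormedAddCommGroup H] [InnerProductSpace ℂ H] [CompleteSpace H]

/-- `H` is `ℓ²(V, ν)`, `δ x` being the indicator function of `x`. -/
structure IsEll2 {V : Type} (ν : V → ℝ) (δ : V → H) : Prop where
  pos : ∀ x, 0 < ν x
  self : ∀ x, ⟪δ x, δ x⟫_ℂ = ν x
  orth : ∀ x y, x ≠ y → ⟪δ x, δ y⟫_ℂ = 0
  total : ∀ φ : H, (∀ x, ⟪δ x, φ⟫_ℂ = 0) → φ = 0

/-- The value `φ(x)`. -/
noncomputable def val {V : Type} (ν : V → ℝ) (δ : V → H) (φ : H) (x : V) : ℂ := ⟪δ x, φ⟫_ℂ / ν x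

/-- `ℓ²(S, ν)`: the `φ` which vanish outside `S`, that is, which are orthogonal to all `δ x` with
`x` outside `S`. -/
noncomputable abbrev supp {V : Type} (δ : V → H) (S : Set V) : Submodule ℂ H :=
  (Submodule.span ℂ (δ '' Sᶜ))ᗮ

/-- The restriction (compression) of `T` to `ℓ²(S, ν)`. -/
noncomputable def trunc {V : Type} (δ : V → H) (T : H →L[ℂ] H) (S : Set V) :
    supp δ S →L[ℂ] supp δ S :=
  (supp δ S).orthogonalProjection ∘L T ∘L (supp δ S).subtypeL

/-- `G_x(z, T) = ⟨δ_x, (T - z)⁻¹ δ_x⟩`. -/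
noncomputable def green {V : Type} (δ : V → H) (T : H →L[ℂ] H) (x : V) (z : ℂ) : ℂ :=
  ⟪δ x, Ring.inverse (T - z • 1) (δ x)⟫_ℂ

/-- `Γ_x(z, T) = ⟨δ_x, (T_x - z)⁻¹ δ_x⟩`, `T_x` the restriction of `T` to `ℓ²(V_x, ν)`. -/
noncomputable def greenBelow {V : Type} (τ : RTree V) (δ : V → H) (T : H →L[ℂ] H) (x : V) (z : ℂ) :
    ℂ :=
  ⟪δ x, ((Ring.inverse (trunc δ T (τ.below x) - z • 1)
    ((supp δ (τ.below x)).orthogonalProjection (δ x)) : supp δ (τ.below x)) : H)⟫_ℂ

/-- `T` is a label invariant operator. -/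
structure IsLabelInvariant {V A : Type} (τ : RTree V) (a : V → A) (M : A → A → ℕ) (ν : V → ℝ)
    (δ : V → H) (T : H →L[ℂ] H) (t : V → V → ℂ) (w : V → ℝ) : Prop where
  selfAdjoint : IsSelfAdjoint T
  label : ∀ x y, a x = a y → ν x = ν y
  ne_zero : ∀ x y, t x y ≠ 0 ↔ τ.Adj x y
  symm : ∀ x y, t x y * ν x = conj (t y x) * ν y
  edge : ∃ m : A → A → ℝ, ∀ x y, τ.IsChild y x → ‖t x y‖ ^ 2 * M (a x) (a y) = m (a x) (a y)
  vertex : ∃ m : A → ℝ, ∀ x, w x = m (a x)
  apply : ∀ φ x, val ν δ (T φ) x = (∑ᶠ y, t x y * val ν δ φ y) + w x * val ν δ φ x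

end Pool.Agent.Q183.GT
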