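import Pool.Agent.Q183.GT.Alg
import Pool.Agent.Q183.GT.Bdry

namespace Pool.Agent.Q183.GT

open Filter Topology Set Polynomial

/-- The ring of holomorphic functions on the upper half plane. -/
def HolR : Subalgebra ℂ (UH → ℂ) where
  carrier := {f | ∃ F : ℂ → ℂ, AnalyticOnNhd ℂ F UH ∧ ∀ x : UH, f x = F x}
  mul_mem' := by
    rintro f g ⟨F, hF, hf⟩ ⟨G, hG, hg⟩
    exact ⟨F * G, hF.mul hG, fun x => by simp [hf x, hg x]⟩
  add_mem' := by
    rintro f g ⟨F, hF, hf⟩ ⟨G, hG, hg⟩
    exact ⟨F + G, hF.add hG, fun x => by simp [hf x, hg x]⟩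
  algebraMap_mem' := by
    intro c
    exact ⟨fun _ => c, analyticOnNhd_const, fun x => by simp⟩

instance : Nontrivial HolR := by
  refine ⟨⟨0, 1, fun h => ?_⟩⟩
  have h1 : ((0 : HolR) : UH → ℂ) ⟨Complex.I, by show (0:ℝ) < Complex.I.im; simp⟩
      = ((1 : HolR) : UH → ℂ) ⟨Complex.I, by show (0:ℝ) < Complex.I.im; simp⟩ := by rw [h]
  simp at h1

instance : NoZeroDivisors HolR := by
  constructor
  rintro ⟨f, F, hF, hf⟩ ⟨g, G, hG, hg⟩ h
  have h1 : ∀ z ∈ UH, F z * G z = 0 := by
    intro z hz
    have h2 := congrArg (fun s : HolR => (s : UH → ℂ) ⟨z, hz⟩) h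
    simpa [hf, hg] using h2
  rcases AnalyticOnNhd.eq_zero_or_eq_zero_of_mul_eq_zero hF hG h1 convex_UH.isPreconnected with h2 | h2
  · left
    apply Subtype.ext
    funext x
    simp [hf x, h2 x x.2]
  · right
    apply Subtype.ext
    funext x
    simp [hg x, h2 x x.2]

instance : IsDomain HolR := NoZeroDivisors.to_isDomain _

/-- The coordinate function. -/
def holZ : HolR := ⟨fun x => x, fun z => z, analyticOnNhd_id, fun _ => rfl⟩

/-- Evaluation at a point. -/
def evR (z : UH) : HolR →+* ℂ := (Pi.evalRingHom (fun _ : UH => ℂ) z).comp HolR.val.toRingHom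

theorem exists_poly {J : Type} [Fintype J] [DecidableEq J] (w : J → ℂ) (c : J → J → ℂ)
    (g : J → ℂ → ℂ) (hg : ∀ j, AnalyticOnNhd ℂ (g j) UH)
    (h : ∀ j, ∀ z ∈ UH, g j z * (w j - z - ∑ k, c j k * g k z) = 1)
    (hdet : ∃ z ∈ UH, (1 - Matrix.of (fun j k => g j z ^ 2 * c j k) : Matrix J J ℂ).det ≠ 0) :
    ∀ j, ∃ P : Polynomial (Polynomial ℂ), P ≠ 0 ∧
      ∀ z ∈ UH, (P.map (evalRingHom z)).eval (g j z) = 0 := by
  classical
  letI : Algebra (Polynomial ℂ) HolR := (aeval (R := ℂ) holZ).toRingHom.toAlgebra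
  have halg : ∀ (p : Polynomial ℂ) (z : UH), evR z (algebraMap (Polynomial ℂ) HolR p) = p.eval (z : ℂ) := by
    intro p z
    have h1 : (evR z).comp (algebraMap (Polynomial ℂ) HolR) = evalRingHom (z : ℂ) := by
      apply Polynomial.ringHom_ext
      · intro a
        simp [RingHom.algebraMap_toAlgebra, evR]
      · simp [RingHom.algebraMap_toAlgebra, evR, holZ]
    exact congrArg (fun r : Polynomial ℂ →+* ℂ => r p) h1
  have hinj : Function.Injective (algebraMap (Polynomial ℂ) HolR) := by
    rw [injective_iff_map_eq_zero]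
    intro p hp
    by_contra hne
    have hsub : UH ⊆ {z | p.IsRoot z} := by
      intro z hz
      have h1 := halg p ⟨z, hz⟩
      rw [hp, map_zero] at h1
      exact h1.symm
    have hfin : {z : ℂ | p.IsRoot z}.Finite := Polynomial.finite_setOf_isRoot hne
    have hopen : IsOpen UH := isOpen_UH
    have hinf : UH.Infinite := by
      have h1 : (Set.range fun n : ℕ => ((n : ℂ) + Complex.I)) ⊆ UH := by
        rintro _ ⟨n, rfl⟩
        show 0 < ((n : ℂ) + Complex.I).im
        simp
      refine (Set.infinite_range_of_injective ?_).mono h1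
      intro a b hab
      have : (a : ℂ) = b := by simpa using hab
      exact_mod_cast this
    exact hinf (hfin.subset hsub)
  let L := FractionRing HolR
  haveI hfs0 : FaithfulSMul (Polynomial ℂ) HolR := (faithfulSMul_iff_algebraMap_injective _ _).mpr hinj
  have hinjL : Function.Injective (algebraMap (Polynomial ℂ) L) := by
    rw [IsScalarTower.algebraMap_eq (Polynomial ℂ) HolR L]
    exact (IsFractionRing.injective HolR L).comp hinj
  haveI hfs : FaithfulSMul (Polynomial ℂ) L := (faithfulSMul_iff_algebraMap_injective _ _).mpr hinjL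
  let K := FractionRing (Polynomial ℂ)
  letI : Algebra K L := FractionRing.liftAlgebra (Polynomial ℂ) L
  haveI : IsScalarTower (Polynomial ℂ) K L := FractionRing.isScalarTower_liftAlgebra (Polynomial ℂ) L
  let G : J → HolR := fun j => ⟨fun x => g j x, g j, hg j, fun _ => rfl⟩
  have hKL : ∀ p : Polynomial ℂ, algebraMap K L (algebraMap (Polynomial ℂ) K p)
      = algebraMap HolR L (algebraMap (Polynomial ℂ) HolR p) := by
    intro p
    rw [← IsScalarTower.algebraMap_apply (Polynomial ℂ) K L,
      ← IsScalarTower.algebraMap_apply (Polynomial ℂ) HolR L]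
  have hext : ∀ a b : HolR, (∀ z : UH, evR z a = evR z b) → a = b := by
    intro a b hab
    apply Subtype.ext
    funext z
    exact hab z
  haveI : CharZero K := charZero_of_injective_algebraMap (R := Polynomial ℂ)
    (IsFractionRing.injective (Polynomial ℂ) K)
  have hmain := alg_of_system (K := K) (L := L) (algebraMap (Polynomial ℂ) K X)
    (fun j => algebraMap (Polynomial ℂ) K (C (w j)))
    (fun j k => algebraMap (Polynomial ℂ) K (C (c j k))) (fun j => algebraMap HolR L (G j)) ?_ ?_
  · intro j
    have h1 : IsAlgebraic (Polynomial ℂ) (algebraMap HolR L (G j)) :=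
      (IsFractionRing.isAlgebraic_iff (Polynomial ℂ) K L).mpr (hmain j)
    obtain ⟨P, hP, hP0⟩ := h1
    refine ⟨P, hP, fun z hz => ?_⟩
    rw [aeval_algebraMap_apply] at hP0
    have h2 : aeval (G j) P = 0 := by
      apply IsFractionRing.injective HolR L
      rw [hP0, map_zero]
    have h3 := congrArg (evR ⟨z, hz⟩) h2
    rw [map_zero, aeval_def, hom_eval₂] at h3
    have h4 : (evR ⟨z, hz⟩).comp (algebraMap (Polynomial ℂ) HolR) = evalRingHom z := by
      ext p
      · simp [halg]
      · simp [halg]
    rw [h4] at h3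
    rw [eval_map]
    exact h3
  · intro j
    simp only [hKL]
    rw [← map_sub, ← map_one (algebraMap HolR L)]
    simp only [← map_mul, ← map_sum, ← map_sub]
    congr 1
    apply hext
    intro z
    simp only [map_mul, map_sub, map_sum, halg, map_one, eval_C, eval_X]
    exact h j z z.2
  · obtain ⟨z, hz, hz0⟩ := hdet
    intro h0
    apply hz0
    have h1 : (1 - Matrix.of (fun j k => (algebraMap HolR L (G j)) ^ 2
        * algebraMap K L (algebraMap (Polynomial ℂ) K (C (c j k)))) : Matrix J J L)
        = (algebraMap HolR L).mapMatrix (1 - Matrix.of (fun j k => (G j) ^ 2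
          * algebraMap (Polynomial ℂ) HolR (C (c j k)))) := by
      rw [map_sub, map_one]
      congr 1
      ext j k
      simp [hKL]
    rw [h1, ← RingHom.map_det] at h0
    have h2 := (injective_iff_map_eq_zero _).mp (IsFractionRing.injective HolR L) _ h0
    have h3 := congrArg (evR ⟨z, hz⟩) h2
    rw [map_zero, RingHom.map_det] at h3
    rw [← h3]
    congr 1
    rw [map_sub, map_one]
    congr 1
    ext j k
    simp only [Matrix.of_apply, RingHom.mapMatrix_apply, Matrix.map_apply, map_mul, map_pow, halg,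
      eval_C]
    rfl

end Pool.Agent.Q183.GT
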