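import Pool.Agent.Q183.GT.Rec
import Pool.Agent.Q183.GT.Hol

namespace Pool.Agent.Q183.GT

open Filter Topology Set
open scoped InnerProductSpace ComplexConjugate

variable {H : Type*} [NormedAddCommGroup H] [InnerProductSpace ℂ H] [CompleteSpace H]
variable {V : Type} {ν : V → ℝ} {δ : V → H} {A : Type} [Fintype A] {τ : RTree V} {a : V → A}
  {M : A → A → ℕ} {T : H →L[ℂ] H} {t : V → V → ℂ} {w : V → ℝ}

theorem gg_inner (hE : IsEll2 ν δ) (x : V) (z : ℂ) :
    gg τ ν δ T x z = ⟪(supp δ (τ.below x)).orthogonalProjection (δ x),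
      res (trunc δ T (τ.below x)) z ((supp δ (τ.below x)).orthogonalProjection (δ x))⟫_ℂ / ν x := by
  rw [Submodule.coe_inner]
  have hP : (((supp δ (τ.below x)).orthogonalProjection (δ x) : supp δ (τ.below x)) : H) = δ x :=
    restr_delta hE (τ.self_mem x)
  rw [hP]
  rfl

theorem norm_proj (hE : IsEll2 ν δ) (x : V) :
    ‖(supp δ (τ.below x)).orthogonalProjection (δ x)‖ ^ 2 = ν x := by
  have hP : (((supp δ (τ.below x)).orthogonalProjection (δ x) : supp δ (τ.below x)) : H) = δ x :=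
    restr_delta hE (τ.self_mem x)
  have h1 : ‖(supp δ (τ.below x)).orthogonalProjection (δ x)‖ = ‖δ x‖ :=
    congrArg (fun u : H => ‖u‖) hP
  rw [h1]
  have h2 := hE.self x
  rw [inner_self_eq_norm_sq_to_K] at h2
  have h3 : (((‖δ x‖ ^ 2 : ℝ)) : ℂ) = ((ν x : ℝ) : ℂ) := by
    rw [Complex.ofReal_pow]
    exact h2
  exact Complex.ofReal_injective h3

theorem gg_norm_le (hE : IsEll2 ν δ) (hT : IsSelfAdjoint T) (x : V) {z : ℂ} (hz : 0 < z.im) :
    ‖gg τ ν δ T x z‖ ≤ 1 / z.im := by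
  rw [gg_inner hE, norm_div]
  set p := (supp δ (τ.below x)).orthogonalProjection (δ x) with hp
  have h1 : ‖p‖ ^ 2 = ν x := norm_proj hE x
  have h2 := norm_res_le (trunc_selfAdjoint (δ := δ) hT (τ.below x)) hz p
  have h3 := norm_inner_le_norm (𝕜 := ℂ) p (res (trunc δ T (τ.below x)) z p)
  have hν := hE.pos x
  rw [Complex.norm_real, Real.norm_of_nonneg hν.le, div_le_div_iff₀ hν hz]
  have h4 : ‖⟪p, res (trunc δ T (τ.below x)) z p⟫_ℂ‖ ≤ ‖p‖ * (‖p‖ / z.im) :=
    h3.trans (mul_le_mul_of_nonneg_left h2 (norm_nonneg _))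
  calc ‖⟪p, res (trunc δ T (τ.below x)) z p⟫_ℂ‖ * z.im
      ≤ ‖p‖ * (‖p‖ / z.im) * z.im := mul_le_mul_of_nonneg_right h4 hz.le
    _ = ‖p‖ ^ 2 := by field_simp
    _ = 1 * ν x := by rw [h1, one_mul]

theorem gg_im_pos (hE : IsEll2 ν δ) (hT : IsSelfAdjoint T) (x : V) {z : ℂ} (hz : 0 < z.im) :
    0 < (gg τ ν δ T x z).im := by
  rw [gg_inner hE, Complex.div_ofReal_im]
  set p := (supp δ (τ.below x)).orthogonalProjection (δ x) with hp
  have h1 : ‖p‖ ^ 2 = ν x := norm_proj hE x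
  have hν := hE.pos x
  apply div_pos _ hν
  rw [im_res (trunc_selfAdjoint (δ := δ) hT (τ.below x)) hz.ne']
  apply mul_pos hz
  have h2 := sub_res (trunc_selfAdjoint (δ := δ) hT (τ.below x)) hz.ne' p
  have h3 : res (trunc δ T (τ.below x)) z p ≠ 0 := by
    intro h
    rw [h] at h2
    simp only [map_zero, smul_zero, sub_zero] at h2
    rw [← h2, norm_zero] at h1
    norm_num at h1
    linarith
  exact pow_pos (norm_pos_iff.mpr h3) 2

theorem gg_analytic (hE : IsEll2 ν δ) (hT : IsSelfAdjoint T) (x : V) :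
    AnalyticOnNhd ℂ (gg τ ν δ T x) UH := by
  apply DifferentiableOn.analyticOnNhd _ isOpen_UH
  intro z hz
  apply DifferentiableAt.differentiableWithinAt
  have h1 := differentiableAt_res (trunc_selfAdjoint (δ := δ) hT (τ.below x))
    (ne_of_gt hz : z.im ≠ 0) ((supp δ (τ.below x)).orthogonalProjection (δ x))
    ((supp δ (τ.below x)).orthogonalProjection (δ x))
  have h2 := h1.div_const (ν x : ℂ)
  have h3 : gg τ ν δ T x = fun z => ⟪(supp δ (τ.below x)).orthogonalProjection (δ x),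
      res (trunc δ T (τ.below x)) z ((supp δ (τ.below x)).orthogonalProjection (δ x))⟫_ℂ / ν x :=
    funext fun z => gg_inner hE x z
  rw [h3]
  exact h2

omit [Fintype A] in
theorem M_ne_zero (hM : IsConeTree τ a M) {x s : V} (h : τ.IsChild s x) : M (a x) (a s) ≠ 0 := by
  intro h0
  have h1 := hM x (a s)
  rw [h0, Nat.cast_zero, Set.encard_eq_zero] at h1
  exact Set.notMem_empty s (h1 ▸ ⟨h, rfl⟩)

omit [Fintype A] in
theorem exists_child (hM : IsConeTree τ a M) {x : V} {l : A} (h : M (a x) l ≠ 0) :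
    ∃ s, τ.IsChild s x ∧ a s = l := by
  have h1 := hM x l
  have h2 : {y | τ.IsChild y x ∧ a y = l}.encard ≠ 0 := by
    rw [h1]
    exact_mod_cast h
  exact Set.encard_ne_zero.mp h2

omit [Fintype A] in
theorem kap_label (hM : IsConeTree τ a M) (hL : IsLabelInvariant τ a M ν δ T t w)
    {x s x' s' : V} (h : τ.IsChild s x) (h' : τ.IsChild s' x') (hx : a x = a x')
    (hs : a s = a s') : kap ν t x s = kap ν t x' s' := by
  obtain ⟨m, hm⟩ := hL.edge
  have h1 := hm x s h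
  have h2 := hm x' s' h'
  rw [← hx, ← hs] at h2
  have h3 : (M (a x) (a s) : ℝ) ≠ 0 := by exact_mod_cast M_ne_zero hM h
  have h4 : ‖t x s‖ ^ 2 = ‖t x' s'‖ ^ 2 := mul_right_cancel₀ h3 (h1.trans h2.symm)
  rw [kap, kap, h4, hL.label x x' hx, hL.label s s' hs]

omit [Fintype A] in
theorem exists_cc (hE : IsEll2 ν δ) (hM : IsConeTree τ a M)
    (hL : IsLabelInvariant τ a M ν δ T t w) :
    ∃ cc : A → A → ℝ, (∀ j k, 0 ≤ cc j k) ∧
      ∀ x s, τ.IsChild s x → kap ν t x s = cc (a x) (a s) := by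
  classical
  refine ⟨fun j k => if h : ∃ p : V × V, τ.IsChild p.2 p.1 ∧ a p.1 = j ∧ a p.2 = k
    then kap ν t h.choose.1 h.choose.2 else 0, ?_, ?_⟩
  · intro j k
    dsimp only
    split_ifs with h
    · exact mul_nonneg (sq_nonneg _) (div_nonneg (hE.pos _).le (hE.pos _).le)
    · exact le_rfl
  · intro x s hs
    have h : ∃ p : V × V, τ.IsChild p.2 p.1 ∧ a p.1 = a x ∧ a p.2 = a s := ⟨(x, s), hs, rfl, rfl⟩
    dsimp only
    rw [dif_pos h]
    obtain ⟨h1, h2, h3⟩ := h.choose_spec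
    exact kap_label hM hL hs h1 h2.symm h3.symm

theorem sum_Ch (hM : IsConeTree τ a M) (x : V) (F : A → ℂ) :
    ∑ s ∈ Ch hM x, F (a s) = ∑ l : A, (M (a x) l : ℂ) * F l := by
  classical
  rw [← Finset.sum_fiberwise (Ch hM x) a]
  refine Finset.sum_congr rfl fun l _ => ?_
  have h1 : ∑ s ∈ Ch hM x with a s = l, F (a s) = ∑ s ∈ Ch hM x with a s = l, F l := by
    refine Finset.sum_congr rfl fun s hs => ?_
    rw [(Finset.mem_filter.mp hs).2]
  rw [h1, Finset.sum_const, nsmul_eq_mul]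
  congr 2
  have h2 := hM x l
  have h3 : {y | τ.IsChild y x ∧ a y = l} = (((Ch hM x).filter fun s => a s = l : Finset V) : Set V) := by
    ext y
    simp [mem_Ch]
  rw [h3, Set.encard_coe_eq_coe_finsetCard] at h2
  exact_mod_cast h2

end Pool.Agent.Q183.GT
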