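import Pool.Agent.Q183.GT.Lab

namespace Pool.Agent.Q183.GT

open Filter Topology Set
open scoped InnerProductSpace ComplexConjugate

variable {H : Type*} [NormedAddCommGroup H] [InnerProductSpace ℂ H] [CompleteSpace H]
variable {V : Type} {ν : V → ℝ} {δ : V → H} {A : Type} [Fintype A] {τ : RTree V} {a : V → A}
  {M : A → A → ℕ} {T : H →L[ℂ] H} {t : V → V → ℂ} {w : V → ℝ}

/-- A representative of each label. -/
noncomputable def rep (τ : RTree V) (a : V → A) (k : A) : V := by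
  classical
  exact if h : ∃ x, a x = k then h.choose else τ.root

omit [Fintype A] in
theorem a_rep (x : V) : a (rep τ a (a x)) = a x := by
  classical
  have h : ∃ y, a y = a x := ⟨x, rfl⟩
  rw [rep, dif_pos h]
  exact h.choose_spec

theorem sum_Ch_cc (hM : IsConeTree τ a M) {cc : A → A → ℝ}
    (hcc : ∀ x s, τ.IsChild s x → kap ν t x s = cc (a x) (a s)) (x : V) (F : A → ℂ) :
    ∑ s ∈ Ch hM x, (kap ν t x s : ℂ) * F (a s)
      = ∑ l : A, ((M (a x) l : ℝ) * cc (a x) l : ℝ) * F l := by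
  have h1 : ∑ s ∈ Ch hM x, (kap ν t x s : ℂ) * F (a s)
      = ∑ s ∈ Ch hM x, (fun l => (cc (a x) l : ℂ) * F l) (a s) := by
    refine Finset.sum_congr rfl fun s hs => ?_
    rw [mem_Ch] at hs
    rw [hcc x s hs]
  rw [h1, sum_Ch hM x (fun l => (cc (a x) l : ℂ) * F l)]
  refine Finset.sum_congr rfl fun l _ => ?_
  push_cast
  ring

/-- The uniform constant. -/
noncomputable def CC (M : A → A → ℕ) (cc : A → A → ℝ) : ℝ :=
  ∑ j : A, ∑ l : A, (M j l : ℝ) * cc j l

theorem row_le {cc : A → A → ℝ} (h0 : ∀ j k, 0 ≤ cc j k) (j : A) :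
    ∑ l : A, (M j l : ℝ) * cc j l ≤ CC M cc := by
  have h1 : ∀ j, 0 ≤ ∑ l : A, (M j l : ℝ) * cc j l := fun j =>
    Finset.sum_nonneg fun l _ => mul_nonneg (Nat.cast_nonneg _) (h0 j l)
  exact Finset.single_le_sum (f := fun j => ∑ l : A, (M j l : ℝ) * cc j l)
    (fun j _ => h1 j) (Finset.mem_univ j)

theorem CC_nonneg {cc : A → A → ℝ} (h0 : ∀ j k, 0 ≤ cc j k) : 0 ≤ CC M cc :=
  Finset.sum_nonneg fun j _ => Finset.sum_nonneg fun l _ => mul_nonneg (Nat.cast_nonneg _) (h0 j l)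

theorem sum_kap_le (hM : IsConeTree τ a M) {cc : A → A → ℝ} (h0 : ∀ j k, 0 ≤ cc j k)
    (hcc : ∀ x s, τ.IsChild s x → kap ν t x s = cc (a x) (a s)) (x : V) :
    ∑ s ∈ Ch hM x, kap ν t x s ≤ CC M cc := by
  have h1 := sum_Ch_cc (ν := ν) (t := t) hM hcc x (fun _ => 1)
  simp only [mul_one] at h1
  have h2 : ∑ s ∈ Ch hM x, kap ν t x s = ∑ l : A, (M (a x) l : ℝ) * cc (a x) l := by
    exact_mod_cast h1
  rw [h2]
  exact row_le h0 (a x)

theorem kap_nonneg (hE : IsEll2 ν δ) (x s : V) : 0 ≤ kap ν t x s :=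
  mul_nonneg (sq_nonneg _) (div_nonneg (hE.pos _).le (hE.pos _).le)

theorem label_step (hE : IsEll2 ν δ) (hM : IsConeTree τ a M)
    (hL : IsLabelInvariant τ a M ν δ T t w) {cc : A → A → ℝ} (h0 : ∀ j k, 0 ≤ cc j k)
    (hcc : ∀ x s, τ.IsChild s x → kap ν t x s = cc (a x) (a s)) {z : ℂ} (hz : 0 < z.im)
    (hz2 : 4 * CC M cc ≤ z.im ^ 2) (n : ℕ) :
    ∀ x, ‖gg τ ν δ T x z - gg τ ν δ T (rep τ a (a x)) z‖ ≤ 2 / z.im * (1 / 2) ^ n := by
  obtain ⟨mv, hmv⟩ := hL.vertex
  induction n with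
  | zero =>
    intro x
    have h1 := gg_norm_le (τ := τ) hE hL.selfAdjoint x hz
    have h2 := gg_norm_le (τ := τ) hE hL.selfAdjoint (rep τ a (a x)) hz
    calc ‖gg τ ν δ T x z - gg τ ν δ T (rep τ a (a x)) z‖
        ≤ ‖gg τ ν δ T x z‖ + ‖gg τ ν δ T (rep τ a (a x)) z‖ := norm_sub_le _ _
      _ ≤ 1 / z.im + 1 / z.im := add_le_add h1 h2
      _ = 2 / z.im * (1 / 2) ^ 0 := by ring
  | succ n ih =>
    intro x
    set r := rep τ a (a x) with hr
    have har : a r = a x := a_rep x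
    set d : ℝ := 2 / z.im * (1 / 2) ^ n with hd
    have hd0 : 0 ≤ d := by positivity
    set Sx : V → ℂ := fun y => ∑ s ∈ Ch hM y, (kap ν t y s : ℂ) * gg τ ν δ T s z with hSx
    have e1 := gg_eq hE hM hL x hz.ne'
    have e2 := gg_eq hE hM hL r hz.ne'
    have hw : w r = w x := by rw [hmv, hmv, har]
    rw [hw] at e2
    have e3 : gg τ ν δ T x z - gg τ ν δ T r z
        = gg τ ν δ T x z * gg τ ν δ T r z * (Sx x - Sx r) := by
      simp only [hSx]
      linear_combination (-gg τ ν δ T x z) * e2 + (gg τ ν δ T r z) * e1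
    have e4 : ∀ y, Sx y = (∑ s ∈ Ch hM y, (kap ν t y s : ℂ) *
        (gg τ ν δ T s z - gg τ ν δ T (rep τ a (a s)) z))
        + ∑ l : A, ((M (a y) l : ℝ) * cc (a y) l : ℝ) * gg τ ν δ T (rep τ a l) z := by
      intro y
      rw [← sum_Ch_cc (ν := ν) (t := t) hM hcc y (fun l => gg τ ν δ T (rep τ a l) z),
        ← Finset.sum_add_distrib]
      refine Finset.sum_congr rfl fun s _ => ?_
      ring
    have e5 : ∀ y, ‖∑ s ∈ Ch hM y, (kap ν t y s : ℂ) *
        (gg τ ν δ T s z - gg τ ν δ T (rep τ a (a s)) z)‖ ≤ CC M cc * d := by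
      intro y
      calc ‖∑ s ∈ Ch hM y, (kap ν t y s : ℂ) *
            (gg τ ν δ T s z - gg τ ν δ T (rep τ a (a s)) z)‖
          ≤ ∑ s ∈ Ch hM y, ‖(kap ν t y s : ℂ) *
            (gg τ ν δ T s z - gg τ ν δ T (rep τ a (a s)) z)‖ := norm_sum_le _ _
        _ ≤ ∑ s ∈ Ch hM y, kap ν t y s * d := by
            refine Finset.sum_le_sum fun s _ => ?_
            rw [norm_mul, Complex.norm_real, Real.norm_of_nonneg (kap_nonneg hE y s)]
            exact mul_le_mul_of_nonneg_left (ih s) (kap_nonneg hE y s)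
        _ = (∑ s ∈ Ch hM y, kap ν t y s) * d := by rw [Finset.sum_mul]
        _ ≤ CC M cc * d := mul_le_mul_of_nonneg_right (sum_kap_le hM h0 hcc y) hd0
    have e6 : ‖Sx x - Sx r‖ ≤ 2 * (CC M cc * d) := by
      rw [e4 x, e4 r, har, add_sub_add_right_eq_sub]
      refine (norm_sub_le _ _).trans ?_
      have := add_le_add (e5 x) (e5 r)
      linarith
    have h1 := gg_norm_le (τ := τ) hE hL.selfAdjoint x hz
    have h2 := gg_norm_le (τ := τ) hE hL.selfAdjoint r hz
    rw [e3, norm_mul, norm_mul]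
    have hC := CC_nonneg (M := M) h0
    calc ‖gg τ ν δ T x z‖ * ‖gg τ ν δ T r z‖ * ‖Sx x - Sx r‖
        ≤ (1 / z.im) * (1 / z.im) * (2 * (CC M cc * d)) := by
          apply mul_le_mul (mul_le_mul h1 h2 (norm_nonneg _) (by positivity)) e6 (norm_nonneg _)
          positivity
      _ = (4 * CC M cc) / z.im ^ 2 * (d / 2) := by
          field_simp
          ring
      _ ≤ 1 * (d / 2) := by
          apply mul_le_mul_of_nonneg_right _ (by positivity)
          rw [div_le_one (by positivity)]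
          exact hz2
      _ = 2 / z.im * (1 / 2) ^ (n + 1) := by rw [hd]; ring

theorem label_eq (hE : IsEll2 ν δ) (hM : IsConeTree τ a M)
    (hL : IsLabelInvariant τ a M ν δ T t w) (x : V) :
    ∀ z ∈ UH, gg τ ν δ T x z = gg τ ν δ T (rep τ a (a x)) z := by
  obtain ⟨cc, h0, hcc⟩ := exists_cc hE hM hL
  set R : ℝ := 1 + 4 * CC M cc with hR
  have hC := CC_nonneg (M := M) h0
  have hlarge : ∀ z : ℂ, R < z.im → gg τ ν δ T x z = gg τ ν δ T (rep τ a (a x)) z := by
    intro z hz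
    have hz0 : 0 < z.im := by linarith
    have hz1 : 1 < z.im := by linarith
    have hz2 : 4 * CC M cc ≤ z.im ^ 2 := by nlinarith
    have h1 : ∀ n : ℕ, ‖gg τ ν δ T x z - gg τ ν δ T (rep τ a (a x)) z‖
        ≤ 2 / z.im * (1 / 2) ^ n := fun n => label_step hE hM hL h0 hcc hz0 hz2 n x
    have h2 : Tendsto (fun n : ℕ => 2 / z.im * (1 / 2 : ℝ) ^ n) atTop (𝓝 (2 / z.im * 0)) :=
      (tendsto_pow_atTop_nhds_zero_of_lt_one (by norm_num) (by norm_num)).const_mul _
    rw [mul_zero] at h2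
    have h3 : ‖gg τ ν δ T x z - gg τ ν δ T (rep τ a (a x)) z‖ ≤ 0 := ge_of_tendsto' h2 h1
    rw [← sub_eq_zero]
    exact norm_le_zero_iff.mp h3
  have hz0 : ((R + 1 : ℝ) : ℂ) * Complex.I ∈ UH := by
    show 0 < (((R + 1 : ℝ) : ℂ) * Complex.I).im
    simp
    linarith
  have hev : gg τ ν δ T x =ᶠ[𝓝 (((R + 1 : ℝ) : ℂ) * Complex.I)] gg τ ν δ T (rep τ a (a x)) := by
    have hopen : IsOpen {z : ℂ | R < z.im} := isOpen_lt continuous_const Complex.continuous_im
    have hmem : ((R + 1 : ℝ) : ℂ) * Complex.I ∈ {z : ℂ | R < z.im} := by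
      show R < (((R + 1 : ℝ) : ℂ) * Complex.I).im
      simp
    filter_upwards [hopen.mem_nhds hmem] with z hz
    exact hlarge z hz
  exact (gg_analytic hE hL.selfAdjoint x).eqOn_of_preconnected_of_eventuallyEq
    (gg_analytic hE hL.selfAdjoint _) convex_UH.isPreconnected hz0 hev

theorem gg_bound (hE : IsEll2 ν δ) (hM : IsConeTree τ a M)
    (hL : IsLabelInvariant τ a M ν δ T t w) (hM1 : ∀ j, 1 ≤ M j j) (x : V) :
    ∃ B : ℝ, ∀ z ∈ UH, ‖gg τ ν δ T x z‖ ≤ B := by
  obtain ⟨s, hs, hsa⟩ := exists_child hM (x := x) (l := a x) (by have := hM1 (a x); omega)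
  set κ := kap ν t x s with hκ
  have hκ0 : 0 < κ := by
    apply mul_pos
    · apply pow_pos
      rw [norm_pos_iff, hL.ne_zero]
      exact Or.inl hs
    · exact div_pos (hE.pos _) (hE.pos _)
  refine ⟨Real.sqrt (1 / κ), fun z hz => ?_⟩
  have hz' : 0 < z.im := hz
  set g := gg τ ν δ T x z with hg
  have hgs : gg τ ν δ T s z = g := by
    rw [label_eq hE hM hL s z hz, hsa, ← label_eq hE hM hL x z hz]
  have h1 := gg_eq hE hM hL x hz'.ne'
  set D : ℂ := w x - z - ∑ s ∈ Ch hM x, (kap ν t x s : ℂ) * gg τ ν δ T s z with hD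
  have h2 : D.im ≤ -(κ * g.im) := by
    have h3 : (∑ s ∈ Ch hM x, (kap ν t x s : ℂ) * gg τ ν δ T s z).im
        = ∑ s ∈ Ch hM x, kap ν t x s * (gg τ ν δ T s z).im := by
      rw [Complex.im_sum]
      refine Finset.sum_congr rfl fun s _ => ?_
      rw [Complex.im_ofReal_mul]
    have h4 : κ * g.im ≤ ∑ s ∈ Ch hM x, kap ν t x s * (gg τ ν δ T s z).im := by
      rw [← hgs]
      exact Finset.single_le_sum (f := fun s => kap ν t x s * (gg τ ν δ T s z).im)
        (fun s _ => mul_nonneg (kap_nonneg hE x s)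
          (gg_im_pos hE hL.selfAdjoint s hz').le) ((mem_Ch hM x s).mpr hs)
    rw [hD, Complex.sub_im, Complex.sub_im, h3, Complex.ofReal_im]
    linarith
  have h5 : D.im * ‖g‖ ^ 2 = -g.im := by
    have h6 : D * ((‖g‖ ^ 2 : ℝ) : ℂ) = conj g := by
      rw [← Complex.normSq_eq_norm_sq, ← Complex.mul_conj]
      have h1' : g * D = 1 := h1
      linear_combination (conj g) * h1'
    have h7 := congrArg Complex.im h6
    rw [Complex.im_mul_ofReal, Complex.conj_im] at h7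
    exact h7
  have hgim : 0 < g.im := gg_im_pos hE hL.selfAdjoint x hz'
  have h8 : κ * ‖g‖ ^ 2 ≤ 1 := by
    have h9 : D.im * ‖g‖ ^ 2 ≤ -(κ * g.im) * ‖g‖ ^ 2 :=
      mul_le_mul_of_nonneg_right h2 (sq_nonneg _)
    rw [h5] at h9
    have h10 : g.im * (κ * ‖g‖ ^ 2) ≤ g.im * 1 := by nlinarith
    exact le_of_mul_le_mul_left h10 hgim
  apply Real.le_sqrt_of_sq_le
  rw [le_div_iff₀ hκ0]
  linarith

theorem gg_bdry (hE : IsEll2 ν δ) (hM : IsConeTree τ a M)
    (hL : IsLabelInvariant τ a M ν δ T t w) (hM1 : ∀ j, 1 ≤ M j j) (x : V) :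
    HasBdry (gg τ ν δ T x) := by
  classical
  obtain ⟨cc, h0, hcc⟩ := exists_cc hE hM hL
  obtain ⟨mv, hmv⟩ := hL.vertex
  let J := {k : A // ∃ y, a y = k}
  have hJ : ∀ j : J, a (rep τ a j.1) = j.1 := by
    rintro ⟨k, y, rfl⟩
    exact a_rep y
  let G : J → ℂ → ℂ := fun j => gg τ ν δ T (rep τ a j.1)
  let c : J → J → ℂ := fun j k => (((M j.1 k.1 : ℝ) * cc j.1 k.1 : ℝ) : ℂ)
  have hsys : ∀ j, ∀ z ∈ UH, G j z * ((w (rep τ a j.1) : ℂ) - z - ∑ k, c j k * G k z) = 1 := by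
    intro j z hz
    have hz' : z.im ≠ 0 := ne_of_gt hz
    have h1 := gg_eq hE hM hL (rep τ a j.1) hz'
    have h2 : ∑ s ∈ Ch hM (rep τ a j.1), (kap ν t (rep τ a j.1) s : ℂ) * gg τ ν δ T s z
        = ∑ k, c j k * G k z := by
      have h3 : ∑ s ∈ Ch hM (rep τ a j.1), (kap ν t (rep τ a j.1) s : ℂ) * gg τ ν δ T s z
          = ∑ s ∈ Ch hM (rep τ a j.1), (kap ν t (rep τ a j.1) s : ℂ) *
            (fun l => gg τ ν δ T (rep τ a l) z) (a s) := by
        refine Finset.sum_congr rfl fun s _ => ?_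
        rw [label_eq hE hM hL s z hz]
      rw [h3, sum_Ch_cc (ν := ν) (t := t) hM hcc (rep τ a j.1)
        (fun l => gg τ ν δ T (rep τ a l) z), hJ j]
      have h4 : ∑ l : A, ((((M j.1 l : ℝ) * cc j.1 l : ℝ) : ℂ) * gg τ ν δ T (rep τ a l) z)
          = ∑ l ∈ Finset.univ.filter (fun k : A => ∃ y, a y = k),
            ((((M j.1 l : ℝ) * cc j.1 l : ℝ) : ℂ) * gg τ ν δ T (rep τ a l) z) := by
        symm
        apply Finset.sum_subset (Finset.filter_subset _ _)
        intro l _ hl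
        have hl' : ¬ ∃ y, a y = l := by simpa using hl
        have hM0 : M j.1 l = 0 := by
          by_contra hne
          have hne' : M (a (rep τ a j.1)) l ≠ 0 := by rwa [hJ j]
          obtain ⟨s, _, hs⟩ := exists_child hM hne'
          exact hl' ⟨s, hs⟩
        simp [hM0]
      rw [h4]
      exact Finset.sum_subtype _ (by simp) _
    rw [h2] at h1
    exact h1
  have hdet : ∃ z ∈ UH, (1 - Matrix.of (fun j k => G j z ^ 2 * c j k) : Matrix J J ℂ).det ≠ 0 := by
    have hC := CC_nonneg (M := M) h0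
    set R : ℝ := 1 + 4 * CC M cc with hR
    refine ⟨(R : ℂ) * Complex.I, ?_, ?_⟩
    · show 0 < ((R : ℂ) * Complex.I).im
      simp
      linarith
    · set z : ℂ := (R : ℂ) * Complex.I with hz
      have hzim : z.im = R := by simp [hz]
      have hz' : 0 < z.im := by rw [hzim]; linarith
      apply det_ne_zero_of_sum_row_lt_diag
      intro k
      have hb : ∀ j, ‖G k z ^ 2 * c k j‖ ≤ (1 / R ^ 2) * ((M k.1 j.1 : ℝ) * cc k.1 j.1) := by
        intro j
        rw [norm_mul, norm_pow]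
        have h1 := gg_norm_le (τ := τ) hE hL.selfAdjoint (rep τ a k.1) hz'
        rw [hzim] at h1
        have h2 : ‖c k j‖ = (M k.1 j.1 : ℝ) * cc k.1 j.1 := by
          rw [Complex.norm_real, Real.norm_of_nonneg (mul_nonneg (Nat.cast_nonneg _) (h0 _ _))]
        rw [h2]
        apply mul_le_mul_of_nonneg_right _ (mul_nonneg (Nat.cast_nonneg _) (h0 _ _))
        have h3 : ‖G k z‖ ^ 2 ≤ (1 / R) ^ 2 := pow_le_pow_left₀ (norm_nonneg _) h1 2
        rw [div_pow, one_pow] at h3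
        exact h3
      have hsum : ∑ j, ‖G k z ^ 2 * c k j‖ ≤ 1 / 2 := by
        have h1 : ∑ j : J, (M k.1 j.1 : ℝ) * cc k.1 j.1 ≤ CC M cc := by
          refine le_trans ?_ (row_le (M := M) h0 k.1)
          have h2 : ∑ j : J, (M k.1 j.1 : ℝ) * cc k.1 j.1
              = ∑ l ∈ Finset.univ.filter (fun k : A => ∃ y, a y = k), (M k.1 l : ℝ) * cc k.1 l := by
            symm
            exact Finset.sum_subtype _ (by simp) _
          rw [h2]
          exact Finset.sum_le_sum_of_subset_of_nonneg (Finset.filter_subset _ _)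
            fun l _ _ => mul_nonneg (Nat.cast_nonneg _) (h0 _ _)
        calc ∑ j, ‖G k z ^ 2 * c k j‖ ≤ ∑ j : J, (1 / R ^ 2) * ((M k.1 j.1 : ℝ) * cc k.1 j.1) :=
              Finset.sum_le_sum fun j _ => hb j
          _ = (1 / R ^ 2) * ∑ j : J, (M k.1 j.1 : ℝ) * cc k.1 j.1 := by rw [Finset.mul_sum]
          _ ≤ (1 / R ^ 2) * CC M cc := mul_le_mul_of_nonneg_left h1 (by positivity)
          _ ≤ 1 / 2 := by
              rw [one_div, inv_mul_le_iff₀ (by positivity)]
              nlinarith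
      have hoff : ∀ j ∈ Finset.univ.erase k,
          ‖(1 - Matrix.of (fun j k => G j z ^ 2 * c j k) : Matrix J J ℂ) k j‖
            = ‖G k z ^ 2 * c k j‖ := by
        intro j hj
        have hjk : k ≠ j := (Finset.ne_of_mem_erase hj).symm
        rw [Matrix.sub_apply, Matrix.one_apply_ne hjk, Matrix.of_apply, zero_sub, norm_neg]
      rw [Finset.sum_congr rfl hoff]
      have hdiag : 1 - ‖G k z ^ 2 * c k k‖
          ≤ ‖(1 - Matrix.of (fun j k => G j z ^ 2 * c j k) : Matrix J J ℂ) k k‖ := by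
        rw [Matrix.sub_apply, Matrix.one_apply_eq, Matrix.of_apply]
        have := norm_sub_norm_le (1 : ℂ) (G k z ^ 2 * c k k)
        rwa [norm_one] at this
      have hsplit := Finset.add_sum_erase Finset.univ (fun j => ‖G k z ^ 2 * c k j‖)
        (Finset.mem_univ k)
      linarith
  have hpoly := exists_poly (fun j : J => (w (rep τ a j.1) : ℂ)) c G
    (fun j => gg_analytic hE hL.selfAdjoint _) hsys hdet
  obtain ⟨P, hP, hPz⟩ := hpoly ⟨a x, x, rfl⟩
  obtain ⟨B, hB⟩ := gg_bound hE hM hL hM1 x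
  intro E
  refine boundary_limit (gg_analytic hE hL.selfAdjoint x).continuousOn B hB P hP ?_ E
  intro z hz
  rw [label_eq hE hM hL x z hz]
  exact hPz z hz

theorem GG_bdry (hE : IsEll2 ν δ) (hM : IsConeTree τ a M)
    (hL : IsLabelInvariant τ a M ν δ T t w) (hM1 : ∀ j, 1 ≤ M j j) :
    ∀ (n : ℕ) (x : V), τ.parent^[n] x = τ.root → HasBdry (GG ν δ T x) := by
  intro n
  induction n with
  | zero =>
    intro x hx
    have hx' : x = τ.root := hx
    subst hx'
    have h1 : GG ν δ T τ.root = gg τ ν δ T τ.root := by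
      funext z
      rw [GG, gg, τ.below_root]
    rw [h1]
    exact gg_bdry hE hM hL hM1 τ.root
  | succ n ih =>
    intro x hx
    by_cases hxr : x = τ.root
    · exact ih x (by rw [hxr]; exact τ.iter_root n)
    · rw [Function.iterate_succ_apply] at hx
      have hp := ih (τ.parent x) hx
      have hch : τ.IsChild x (τ.parent x) := ⟨hxr, rfl⟩
      intro E
      obtain ⟨l1, hl1⟩ := hp E
      obtain ⟨l2, hl2⟩ := gg_bdry hE hM hL hM1 x E
      refine ⟨l2 + kap ν t (τ.parent x) x * l1 * l2 ^ 2, ?_⟩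
      have h1 : Tendsto (fun z => gg τ ν δ T x z
          + kap ν t (τ.parent x) x * GG ν δ T (τ.parent x) z * gg τ ν δ T x z ^ 2)
          (𝓝[UH] (E : ℂ)) (𝓝 (l2 + kap ν t (τ.parent x) x * l1 * l2 ^ 2)) :=
        hl2.add ((tendsto_const_nhds.mul hl1).mul (hl2.pow 2))
      refine h1.congr' ?_
      filter_upwards [self_mem_nhdsWithin] with z hz
      exact (GG_child hE hM hL hch (ne_of_gt hz : z.im ≠ 0)).symm

end Pool.Agent.Q183.GT
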