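import Mathlib

namespace Pool.Agent.Q183.GT

open Filter Topology Set
open scoped InnerProductSpace ComplexConjugate

variable {K : Type*} [NormedAddCommGroup K] [InnerProductSpace ℂ K] [CompleteSpace K]

/-- The resolvent `(A - z)⁻¹`. -/
noncomputable def res (A : K →L[ℂ] K) (z : ℂ) : K →L[ℂ] K := Ring.inverse (A - z • 1)

theorem isUnit_sub {A : K →L[ℂ] K} (hA : IsSelfAdjoint A) {z : ℂ} (hz : z.im ≠ 0) :
    IsUnit (A - z • 1) := by
  have h1 : z ∉ spectrum ℂ A := by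
    intro h
    have h2 := hA.mem_spectrum_eq_re h
    apply hz
    rw [h2]
    simp
  rw [spectrum.mem_iff, not_not] at h1
  have h3 := h1.neg
  rw [neg_sub, Algebra.algebraMap_eq_smul_one] at h3
  exact h3

theorem sub_res {A : K →L[ℂ] K} (hA : IsSelfAdjoint A) {z : ℂ} (hz : z.im ≠ 0) (p : K) :
    A (res A z p) - z • res A z p = p := by
  have h1 : (A - z • 1) * res A z = 1 := Ring.mul_inverse_cancel _ (isUnit_sub hA hz)
  have h2 := congrArg (fun B : K →L[ℂ] K => B p) h1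
  simpa using h2

theorem eq_res {A : K →L[ℂ] K} (hA : IsSelfAdjoint A) {z : ℂ} (hz : z.im ≠ 0) {p u : K}
    (h : A u - z • u = p) : u = res A z p := by
  have h1 : res A z * (A - z • 1) = 1 := Ring.inverse_mul_cancel _ (isUnit_sub hA hz)
  have h2 := congrArg (fun B : K →L[ℂ] K => B u) h1
  simp only [ContinuousLinearMap.mul_apply, ContinuousLinearMap.sub_apply,
    ContinuousLinearMap.smul_apply, ContinuousLinearMap.one_apply] at h2
  rw [h] at h2
  exact h2.symm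

theorem symm_inner {A : K →L[ℂ] K} (hA : IsSelfAdjoint A) (u v : K) : ⟪A u, v⟫_ℂ = ⟪u, A v⟫_ℂ := by
  have := ContinuousLinearMap.isSelfAdjoint_iff_isSymmetric.mp hA
  exact this u v

theorem res_symm {A : K →L[ℂ] K} (hA : IsSelfAdjoint A) {z : ℂ} (hz : z.im ≠ 0) (p q : K) :
    ⟪p, res A z q⟫_ℂ = ⟪res A (conj z) p, q⟫_ℂ := by
  have hz' : (conj z).im ≠ 0 := by simpa using hz
  have h1 : ⟪A (res A (conj z) p) - conj z • res A (conj z) p, res A z q⟫_ℂ
      = ⟪res A (conj z) p, A (res A z q) - z • res A z q⟫_ℂ := by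
    rw [inner_sub_left, inner_sub_right, symm_inner hA, inner_smul_left, inner_smul_right]
    simp
  rwa [sub_res hA hz', sub_res hA hz] at h1

theorem im_res {A : K →L[ℂ] K} (hA : IsSelfAdjoint A) {z : ℂ} (hz : z.im ≠ 0) (p : K) :
    (⟪p, res A z p⟫_ℂ).im = z.im * ‖res A z p‖ ^ 2 := by
  set u := res A z p with hu
  have h1 : ⟪p, u⟫_ℂ = ⟪A u, u⟫_ℂ - conj z * (‖u‖ : ℂ) ^ 2 := by
    conv_lhs => rw [← sub_res hA hz p]
    rw [inner_sub_left, inner_smul_left, ← hu, inner_self_eq_norm_sq_to_K]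
    rfl
  have h2 : (⟪A u, u⟫_ℂ).im = 0 := by
    have h3 : conj ⟪A u, u⟫_ℂ = ⟪A u, u⟫_ℂ := by
      rw [inner_conj_symm, symm_inner hA]
    exact Complex.conj_eq_iff_im.mp h3
  rw [h1, Complex.sub_im, h2, ← Complex.ofReal_pow, Complex.im_mul_ofReal]
  simp

theorem norm_res_le {A : K →L[ℂ] K} (hA : IsSelfAdjoint A) {z : ℂ} (hz : 0 < z.im) (p : K) :
    ‖res A z p‖ ≤ ‖p‖ / z.im := by
  have h1 := im_res hA hz.ne' p
  have h2 : (⟪p, res A z p⟫_ℂ).im ≤ ‖p‖ * ‖res A z p‖ :=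
    ((Complex.abs_im_le_norm _).trans (norm_inner_le_norm _ _) |> (le_abs_self _).trans)
  rw [h1] at h2
  rw [le_div_iff₀ hz]
  rcases (norm_nonneg (res A z p)).eq_or_lt with h | h
  · rw [← h]; simp
  · nlinarith

theorem differentiableAt_res {A : K →L[ℂ] K} (hA : IsSelfAdjoint A) {z : ℂ} (hz : z.im ≠ 0)
    (p q : K) : DifferentiableAt ℂ (fun z => ⟪p, res A z q⟫_ℂ) z := by
  have h1 : DifferentiableAt ℂ (fun z : ℂ => A - z • (1 : K →L[ℂ] K)) z := by fun_prop
  obtain ⟨u, hu⟩ := isUnit_sub hA hz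
  have h2 : DifferentiableAt ℂ (Ring.inverse : (K →L[ℂ] K) → _) (A - z • 1) :=
    hu ▸ differentiableAt_inverse (𝕜 := ℂ) u.isUnit
  have h3 : DifferentiableAt ℂ (fun z : ℂ => res A z) z := h2.comp z h1
  have h4 : DifferentiableAt ℂ (fun z : ℂ => res A z q) z := h3.clm_apply (differentiableAt_const q)
  exact (innerSL ℂ p).differentiableAt.comp z h4

end Pool.Agent.Q183.GT
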