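import Pool.Agent.Q183.GT.Tree

namespace Pool.Agent.Q183.GT

open Filter Topology Set
open scoped InnerProductSpace ComplexConjugate

variable {H : Type*} [NormedAddCommGroup H] [InnerProductSpace ℂ H] [CompleteSpace H]
variable {V : Type} {ν : V → ℝ} {δ : V → H} {A : Type} [Finite A] {τ : RTree V} {a : V → A}
  {M : A → A → ℕ} {T : H →L[ℂ] H} {t : V → V → ℂ} {w : V → ℝ}

theorem supp_finite (hM : IsConeTree τ a M) (hL : IsLabelInvariant τ a M ν δ T t w) (v : V)
    (f : V → ℂ) : (Function.support fun s => t v s * f s).Finite := by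
  refine (adj_finite τ hM v).subset ?_
  intro s hs
  rw [Function.mem_support] at hs
  exact (hL.ne_zero v s).mp (left_ne_zero_of_mul hs)

open Classical in
theorem T_restr (hE : IsEll2 ν δ) (hM : IsConeTree τ a M)
    (hL : IsLabelInvariant τ a M ν δ T t w) {x y v : V} (hyx : τ.IsChild y x)
    (hv : v ∈ τ.below y) (φ : H) :
    val ν δ (T (restr δ (τ.below y) φ)) v
      = val ν δ (T φ) v - if v = y then t y x * val ν δ φ x else 0 := by
  rw [hL.apply, hL.apply, val_restr hE hv]
  have h1 : (∑ᶠ s, t v s * val ν δ φ s) - (∑ᶠ s, t v s * val ν δ (restr δ (τ.below y) φ) s)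
      = if v = y then t y x * val ν δ φ x else 0 := by
    rw [← finsum_sub_distrib (supp_finite hM hL v _) (supp_finite hM hL v _)]
    have key : ∀ s, s ≠ x ∨ v ≠ y →
        t v s * val ν δ φ s - t v s * val ν δ (restr δ (τ.below y) φ) s = 0 := by
      intro s hs
      by_cases hsb : s ∈ τ.below y
      · rw [val_restr hE hsb, sub_self]
      · by_cases ht : t v s = 0
        · rw [ht]; ring
        · obtain ⟨h2, h3⟩ := τ.adj_out hv hsb ((hL.ne_zero v s).mp ht)
          exfalso
          rcases hs with hs | hs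
          · exact hs (τ.child_unique h3 hyx)
          · exact hs h2
    split_ifs with hvy
    · subst hvy
      rw [finsum_eq_single _ x (fun s hs => key s (Or.inl hs)),
        val_restr_out (τ.not_mem_below hyx)]
      ring
    · exact finsum_eq_zero_of_forall_eq_zero fun s => key s (Or.inr hvy)
  linear_combination -h1

/-- The normalised truncated Green function at the root of `V_x`. -/
noncomputable def gg (τ : RTree V) (ν : V → ℝ) (δ : V → H) (T : H →L[ℂ] H) (x : V) (z : ℂ) : ℂ :=
  val ν δ (sol δ T (τ.below x) x z) x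

theorem restr_child (hE : IsEll2 ν δ) (hM : IsConeTree τ a M)
    (hL : IsLabelInvariant τ a M ν δ T t w) {x y : V} (hyx : τ.IsChild y x) {S : Set V}
    (hyS : τ.below y ⊆ S) (hxS : x ∈ S) {z : ℂ} (hz : z.im ≠ 0) :
    restr δ (τ.below y) (sol δ T S x z)
      = (-(t y x * val ν δ (sol δ T S x z) x)) • sol δ T (τ.below y) y z := by
  classical
  apply sol_unique hE hL.selfAdjoint (τ.self_mem y) hz
  · intro v hv
    exact val_restr_out hv _
  · intro v hv
    have hvx : v ≠ x := by
      rintro rfl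
      exact τ.not_mem_below hyx hv
    rw [T_restr hE hM hL hyx hv, val_restr hE hv]
    have h1 := sol_eq hE hL.selfAdjoint hxS (hyS hv) hz (z := z)
    rw [if_neg hvx] at h1
    split_ifs with h
    · linear_combination h1
    · linear_combination h1

theorem val_child (hE : IsEll2 ν δ) (hM : IsConeTree τ a M)
    (hL : IsLabelInvariant τ a M ν δ T t w) {x y : V} (hyx : τ.IsChild y x) {S : Set V}
    (hyS : τ.below y ⊆ S) (hxS : x ∈ S) {z : ℂ} (hz : z.im ≠ 0) :
    val ν δ (sol δ T S x z) y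
      = -(t y x * val ν δ (sol δ T S x z) x) * gg τ ν δ T y z := by
  have h1 := restr_child hE hM hL hyx hyS hxS hz
  have h2 := congrArg (fun φ => val ν δ φ y) h1
  rw [val_restr hE (τ.self_mem y), val_smul] at h2
  exact h2

theorem val_self (hE : IsEll2 ν δ) (hM : IsConeTree τ a M)
    (hL : IsLabelInvariant τ a M ν δ T t w) {x y : V} (hyx : τ.IsChild y x) {S : Set V}
    (hyS : τ.below y ⊆ S) {z : ℂ} (hz : z.im ≠ 0) :
    val ν δ (sol δ T S y z) y
      = (1 - t y x * val ν δ (sol δ T S y z) x) * gg τ ν δ T y z := by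
  classical
  have hyS' : y ∈ S := hyS (τ.self_mem y)
  have h1 : restr δ (τ.below y) (sol δ T S y z)
      = (1 - t y x * val ν δ (sol δ T S y z) x) • sol δ T (τ.below y) y z := by
    apply sol_unique hE hL.selfAdjoint (τ.self_mem y) hz
    · intro v hv
      exact val_restr_out hv _
    · intro v hv
      rw [T_restr hE hM hL hyx hv, val_restr hE hv]
      have h1 := sol_eq hE hL.selfAdjoint hyS' (hyS hv) hz (z := z)
      split_ifs at h1 ⊢ with h
      · linear_combination h1
      · linear_combination h1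
  have h2 := congrArg (fun φ => val ν δ φ y) h1
  rw [val_restr hE (τ.self_mem y), val_smul] at h2
  exact h2

theorem sol_symm (hE : IsEll2 ν δ) (hT : IsSelfAdjoint T) {x y : V} {S : Set V}
    (hx : x ∈ S) (hy : y ∈ S) {z : ℂ} (hz : z.im ≠ 0) :
    ν x * val ν δ (sol δ T S y z) x = ν y * conj (val ν δ (sol δ T S x (conj z)) y) := by
  have hν : ∀ v, (ν v : ℂ) ≠ 0 := fun v => by exact_mod_cast (hE.pos v).ne'
  have h1 := res_symm (trunc_selfAdjoint (δ := δ) hT S) hz
    ((supp δ S).orthogonalProjection (δ x)) ((supp δ S).orthogonalProjection (δ y))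
  have hP : ∀ v ∈ S, (((supp δ S).orthogonalProjection (δ v) : supp δ S) : H) = δ v :=
    fun v hv => restr_delta hE hv
  rw [Submodule.coe_inner, Submodule.coe_inner, hP x hx, hP y hy] at h1
  have h2 : ⟪δ x, sol δ T S y z⟫_ℂ = ⟪sol δ T S x (conj z), δ y⟫_ℂ := h1
  rw [val, mul_div_cancel₀ _ (hν x), h2, val, map_div₀, Complex.conj_ofReal,
    mul_div_cancel₀ _ (hν y), inner_conj_symm]

theorem gg_conj (hE : IsEll2 ν δ) (hT : IsSelfAdjoint T) (x : V) {z : ℂ} (hz : z.im ≠ 0) :
    gg τ ν δ T x (conj z) = conj (gg τ ν δ T x z) := by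
  have hν : (ν x : ℂ) ≠ 0 := by exact_mod_cast (hE.pos x).ne'
  have h1 := sol_symm hE hT (τ.self_mem x) (τ.self_mem x) hz
  have h2 := mul_left_cancel₀ hν h1
  have h3 := congrArg conj h2
  rw [Complex.conj_conj] at h3
  exact h3.symm

/-- The coefficient of the edge from `x` to its child `s`. -/
noncomputable def kap (ν : V → ℝ) (t : V → V → ℂ) (x s : V) : ℝ := ‖t x s‖ ^ 2 * (ν x / ν s)

theorem t_mul_t (hE : IsEll2 ν δ) (hL : IsLabelInvariant τ a M ν δ T t w) (x y : V) :
    t x y * t y x = kap ν t x y := by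
  have hν : (ν y : ℂ) ≠ 0 := by exact_mod_cast (hE.pos y).ne'
  have h1 := hL.symm y x
  have h2 : t y x = conj (t x y) * ν x / ν y := by
    rw [← h1]
    field_simp
  rw [h2, kap]
  have h3 : t x y * conj (t x y) = ((‖t x y‖ ^ 2 : ℝ) : ℂ) := by
    rw [Complex.mul_conj, Complex.normSq_eq_norm_sq]
  push_cast at h3 ⊢
  rw [← h3]
  ring

/-- The children of `x`. -/
noncomputable def Ch (hM : IsConeTree τ a M) (x : V) : Finset V := (children_finite τ hM x).toFinset

theorem mem_Ch (hM : IsConeTree τ a M) (x s : V) : s ∈ Ch hM x ↔ τ.IsChild s x := by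
  simp [Ch]

theorem gg_eq (hE : IsEll2 ν δ) (hM : IsConeTree τ a M)
    (hL : IsLabelInvariant τ a M ν δ T t w) (x : V) {z : ℂ} (hz : z.im ≠ 0) :
    gg τ ν δ T x z * (w x - z - ∑ s ∈ Ch hM x, (kap ν t x s : ℂ) * gg τ ν δ T s z) = 1 := by
  classical
  set u := sol δ T (τ.below x) x z with hu
  have h1 := sol_eq hE hL.selfAdjoint (τ.self_mem x) (τ.self_mem x) hz (z := z)
  rw [if_pos rfl, hL.apply] at h1
  have h2 : (∑ᶠ s, t x s * val ν δ u s)
      = ∑ s ∈ Ch hM x, t x s * val ν δ u s := by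
    apply finsum_eq_sum_of_support_subset
    intro s hs
    rw [Function.mem_support] at hs
    rw [Finset.mem_coe, mem_Ch]
    rcases (hL.ne_zero x s).mp (left_ne_zero_of_mul hs) with h | h
    · exact h
    · exfalso
      apply right_ne_zero_of_mul hs
      exact sol_out (τ.not_mem_below h)
  have h3 : ∑ s ∈ Ch hM x, t x s * val ν δ u s
      = -(gg τ ν δ T x z) * ∑ s ∈ Ch hM x, (kap ν t x s : ℂ) * gg τ ν δ T s z := by
    rw [Finset.mul_sum]
    refine Finset.sum_congr rfl fun s hs => ?_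
    rw [mem_Ch] at hs
    rw [hu, val_child hE hM hL hs (τ.below_subset hs) (τ.self_mem x) hz, ← t_mul_t hE hL x s]
    show _ = -(val ν δ (sol δ T (τ.below x) x z) x) * _
    ring
  rw [← hu, h2, h3] at h1
  have h4 : gg τ ν δ T x z = val ν δ u x := rfl
  rw [h4] at h1 ⊢
  linear_combination h1

/-- The normalised Green function. -/
noncomputable def GG (ν : V → ℝ) (δ : V → H) (T : H →L[ℂ] H) (x : V) (z : ℂ) : ℂ :=
  val ν δ (sol δ T univ x z) x

theorem GG_child (hE : IsEll2 ν δ) (hM : IsConeTree τ a M)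
    (hL : IsLabelInvariant τ a M ν δ T t w) {x y : V} (hyx : τ.IsChild y x) {z : ℂ}
    (hz : z.im ≠ 0) :
    GG ν δ T y z = gg τ ν δ T y z + kap ν t x y * GG ν δ T x z * gg τ ν δ T y z ^ 2 := by
  have hν : ∀ v, (ν v : ℂ) ≠ 0 := fun v => by exact_mod_cast (hE.pos v).ne'
  have hz' : (conj z).im ≠ 0 := by simpa using hz
  have h1 := val_self hE hM hL hyx (Set.subset_univ _) hz
  have h2 := sol_symm hE hL.selfAdjoint (Set.mem_univ x) (Set.mem_univ y) hz
  rw [val_child hE hM hL hyx (Set.subset_univ _) (Set.mem_univ x) hz',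
    gg_conj hE hL.selfAdjoint y hz] at h2
  have h3 := sol_symm hE hL.selfAdjoint (Set.mem_univ x) (Set.mem_univ x) hz
  have h4 : conj (val ν δ (sol δ T univ x (conj z)) x) = GG ν δ T x z :=
    (mul_left_cancel₀ (hν x) h3).symm
  rw [map_mul, map_neg, map_mul, h4, Complex.conj_conj] at h2
  have h5 : (ν x : ℂ) * (t y x * val ν δ (sol δ T univ y z) x)
      = -(ν x * kap ν t x y * GG ν δ T x z * gg τ ν δ T y z) := by
    have h6 := hL.symm x y
    have h7 := t_mul_t hE hL x y
    have : (ν x : ℂ) * (t y x * val ν δ (sol δ T univ y z) x)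
        = t y x * (ν x * val ν δ (sol δ T univ y z) x) := by ring
    rw [this, h2, ← h7]
    linear_combination (t y x * GG ν δ T x z * gg τ ν δ T y z) * h6
  have h8 : t y x * val ν δ (sol δ T univ y z) x
      = -(kap ν t x y * GG ν δ T x z * gg τ ν δ T y z) := by
    apply mul_left_cancel₀ (hν x)
    linear_combination h5
  show val ν δ (sol δ T univ y z) y = _
  rw [h1, h8]
  ring

theorem greenBelow_eq (hE : IsEll2 ν δ) (x : V) (z : ℂ) :
    greenBelow τ δ T x z = ν x * gg τ ν δ T x z := by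
  have hν : (ν x : ℂ) ≠ 0 := by exact_mod_cast (hE.pos x).ne'
  rw [gg, val, mul_div_cancel₀ _ hν]
  rfl

theorem green_eq (hE : IsEll2 ν δ) (hT : IsSelfAdjoint T) (x : V) {z : ℂ} (hz : z.im ≠ 0) :
    green δ T x z = ν x * GG ν δ T x z := by
  classical
  have hν : (ν x : ℂ) ≠ 0 := by exact_mod_cast (hE.pos x).ne'
  have h1 := sub_res hT hz (δ x)
  have h2 : res T z (δ x) = (1 : ℂ) • sol δ T univ x z := by
    apply sol_unique hE hT (Set.mem_univ x) hz
    · intro v hv
      exact absurd (Set.mem_univ v) hv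
    · intro v _
      rw [← val_smul, ← val_sub, h1, val_delta hE]
  rw [one_smul] at h2
  rw [GG, val, mul_div_cancel₀ _ hν, ← h2]
  rfl

end Pool.Agent.Q183.GT
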