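import Pool.Agent.Q183.GT.Defs
import Pool.Agent.Q183.GT.Op

namespace Pool.Agent.Q183.GT

open Filter Topology Set
open scoped InnerProductSpace ComplexConjugate

section Comb

variable {V : Type} (τ : RTree V)

theorem RTree.self_mem (x : V) : x ∈ τ.below x := ⟨0, rfl⟩

theorem RTree.below_subset {x y : V} (h : τ.IsChild y x) : τ.below y ⊆ τ.below x := by
  rintro v ⟨n, hn⟩
  refine ⟨n + 1, ?_⟩
  rw [Function.iterate_succ_apply', hn, h.2]

theorem RTree.child_mem {x y : V} (h : τ.IsChild y x) : y ∈ τ.below x :=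
  τ.below_subset h (τ.self_mem y)

theorem RTree.iter_root (n : ℕ) : τ.parent^[n] τ.root = τ.root :=
  Function.iterate_fixed τ.parent_root n

theorem RTree.not_mem_below {x y : V} (h : τ.IsChild y x) : x ∉ τ.below y := by
  rintro ⟨n, hn⟩
  have h1 : τ.parent^[n + 1] x = x := by
    rw [Function.iterate_succ_apply', hn, h.2]
  obtain ⟨m, hm⟩ := τ.reach x
  have h2 : τ.parent^[(n + 1) * m] x = x := by
    rw [Function.iterate_mul]
    exact Function.iterate_fixed h1 m
  have h3 : τ.parent^[(n + 1) * m] x = τ.root := by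
    have : (n + 1) * m = n * m + m := by ring
    rw [this, Function.iterate_add_apply, hm, τ.iter_root]
  have h4 : x = τ.root := by rw [← h2, h3]
  apply h.1
  rw [← hn, h4, τ.iter_root]

theorem RTree.adj_out {y v s : V} (hv : v ∈ τ.below y) (hs : s ∉ τ.below y) (h : τ.Adj v s) :
    v = y ∧ τ.IsChild y s := by
  rcases h with h | h
  · exact absurd (let ⟨n, hn⟩ := hv
      ⟨n + 1, by rw [Function.iterate_succ_apply, h.2, hn]⟩) hs
  · obtain ⟨n, hn⟩ := hv
    rcases n with _ | n
    · have hn' : v = y := hn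
      exact ⟨hn', hn' ▸ h⟩
    · exfalso
      apply hs
      refine ⟨n, ?_⟩
      rw [Function.iterate_succ_apply, h.2] at hn
      exact hn

theorem RTree.below_root : τ.below τ.root = univ := by
  ext x
  simp only [Set.mem_univ, iff_true]
  exact τ.reach x

theorem RTree.child_unique {x x' y : V} (h : τ.IsChild y x) (h' : τ.IsChild y x') : x = x' := by
  rw [← h.2, ← h'.2]

theorem children_finite {A : Type} [Finite A] {a : V → A} {M : A → A → ℕ}
    (hM : IsConeTree τ a M) (x : V) : {y | τ.IsChild y x}.Finite := by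
  have h1 : {y | τ.IsChild y x} = ⋃ l : A, {y | τ.IsChild y x ∧ a y = l} := by
    ext y; simp
  rw [h1]
  refine Set.finite_iUnion fun l => ?_
  rw [← Set.encard_lt_top_iff, hM x l]
  exact ENat.coe_lt_top _

theorem adj_finite {A : Type} [Finite A] {a : V → A} {M : A → A → ℕ}
    (hM : IsConeTree τ a M) (x : V) : {y | τ.Adj x y}.Finite := by
  have h1 : {y | τ.Adj x y} ⊆ {y | τ.IsChild y x} ∪ {τ.parent x} := by
    rintro y (h | h)
    · exact Or.inl h
    · exact Or.inr h.2.symm
  exact ((children_finite τ hM x).union (Set.finite_singleton _)).subset h1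

end Comb

variable {H : Type*} [NormedAddCommGroup H] [InnerProductSpace ℂ H] [CompleteSpace H]
variable {V : Type} {ν : V → ℝ} {δ : V → H}

theorem mem_supp (S : Set V) (φ : H) : φ ∈ supp δ S ↔ ∀ x ∉ S, ⟪δ x, φ⟫_ℂ = 0 := by
  rw [supp, Submodule.mem_orthogonal]
  constructor
  · intro h x hx
    exact h _ (Submodule.subset_span ⟨x, hx, rfl⟩)
  · intro h u hu
    refine Submodule.span_induction ?_ ?_ ?_ ?_ hu
    · rintro _ ⟨x, hx, rfl⟩
      exact h x hx
    · simp
    · intro a b _ _ ha hb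
      rw [inner_add_left, ha, hb, add_zero]
    · intro c a _ ha
      rw [inner_smul_left, ha, mul_zero]

theorem delta_mem (hE : IsEll2 ν δ) {S : Set V} {x : V} (hx : x ∈ S) : δ x ∈ supp δ S := by
  rw [mem_supp]
  intro y hy
  apply hE.orth
  rintro rfl
  exact hy hx

/-- The restriction of `φ` to `S`. -/
noncomputable def restr (δ : V → H) (S : Set V) (φ : H) : H := ((supp δ S).orthogonalProjection φ : H)

theorem inner_restr (hE : IsEll2 ν δ) {S : Set V} {x : V} (hx : x ∈ S) (φ : H) :
    ⟪δ x, restr δ S φ⟫_ℂ = ⟪δ x, φ⟫_ℂ := by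
  have h := Submodule.inner_orthogonalProjection_eq_of_mem_left (K := supp δ S)
    ⟨δ x, delta_mem hE hx⟩ φ
  exact h

theorem inner_restr_out {S : Set V} {x : V} (hx : x ∉ S) (φ : H) :
    ⟪δ x, restr δ S φ⟫_ℂ = 0 :=
  (mem_supp S _).mp ((supp δ S).orthogonalProjection φ).2 x hx

theorem val_restr (hE : IsEll2 ν δ) {S : Set V} {x : V} (hx : x ∈ S) (φ : H) :
    val ν δ (restr δ S φ) x = val ν δ φ x := by
  rw [val, inner_restr hE hx, val]

theorem val_restr_out {S : Set V} {x : V} (hx : x ∉ S) (φ : H) :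
    val ν δ (restr δ S φ) x = 0 := by
  rw [val, inner_restr_out hx, zero_div]

theorem restr_delta (hE : IsEll2 ν δ) {S : Set V} {x : V} (hx : x ∈ S) : restr δ S (δ x) = δ x := by
  have h := Submodule.orthogonalProjection_mem_subspace_eq_self (K := supp δ S)
    ⟨δ x, delta_mem hE hx⟩
  exact congrArg (fun u : supp δ S => (u : H)) h

theorem ext_val (hE : IsEll2 ν δ) {φ ψ : H} (h : ∀ x, ⟪δ x, φ⟫_ℂ = ⟪δ x, ψ⟫_ℂ) : φ = ψ := by
  rw [← sub_eq_zero]
  apply hE.total
  intro x
  rw [inner_sub_right, h, sub_self]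

theorem trunc_selfAdjoint {T : H →L[ℂ] H} (hT : IsSelfAdjoint T) (S : Set V) :
    IsSelfAdjoint (trunc δ T S) := by
  rw [ContinuousLinearMap.isSelfAdjoint_iff_isSymmetric]
  intro u v
  show ⟪((supp δ S).orthogonalProjection (T (u : H)) : supp δ S), v⟫_ℂ
    = ⟪u, ((supp δ S).orthogonalProjection (T (v : H)) : supp δ S)⟫_ℂ
  rw [Submodule.inner_orthogonalProjection_eq_of_mem_right,
    Submodule.inner_orthogonalProjection_eq_of_mem_left]
  exact symm_inner hT _ _

/-- The solution of `(T_S - z) u = δ_x`. -/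
noncomputable def sol (δ : V → H) (T : H →L[ℂ] H) (S : Set V) (x : V) (z : ℂ) : H :=
  (res (trunc δ T S) z ((supp δ S).orthogonalProjection (δ x)) : supp δ S)

theorem sol_out {T : H →L[ℂ] H} {S : Set V} {x v : V} {z : ℂ} (hv : v ∉ S) :
    val ν δ (sol δ T S x z) v = 0 := by
  have h := (mem_supp S _).mp (res (trunc δ T S) z ((supp δ S).orthogonalProjection (δ x))).2 v hv
  change ⟪δ v, sol δ T S x z⟫_ℂ = 0 at h
  rw [val, h, zero_div]

theorem val_delta (hE : IsEll2 ν δ) (x v : V) [Decidable (v = x)] :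
    val ν δ (δ x) v = if v = x then 1 else 0 := by
  rw [val]
  split_ifs with h
  · subst h
    rw [hE.self]
    exact div_self (by exact_mod_cast (hE.pos v).ne')
  · rw [hE.orth _ _ h, zero_div]

theorem val_add (φ ψ : H) (x : V) : val ν δ (φ + ψ) x = val ν δ φ x + val ν δ ψ x := by
  rw [val, inner_add_right, add_div]; rfl

theorem val_sub (φ ψ : H) (x : V) : val ν δ (φ - ψ) x = val ν δ φ x - val ν δ ψ x := by
  rw [val, inner_sub_right, sub_div]; rfl

theorem val_smul (c : ℂ) (φ : H) (x : V) : val ν δ (c • φ) x = c * val ν δ φ x := by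
  rw [val, inner_smul_right, mul_div_assoc]; rfl

open Classical in
theorem sol_eq (hE : IsEll2 ν δ) {T : H →L[ℂ] H} (hT : IsSelfAdjoint T) {S : Set V} {x v : V}
    (hx : x ∈ S) (hv : v ∈ S) {z : ℂ} (hz : z.im ≠ 0) :
    val ν δ (T (sol δ T S x z)) v - z * val ν δ (sol δ T S x z) v = if v = x then 1 else 0 := by
  have h1 := sub_res (trunc_selfAdjoint (δ := δ) hT S) hz ((supp δ S).orthogonalProjection (δ x))
  have h2 := congrArg (fun u : supp δ S => val ν δ (u : H) v) h1
  simp only [Submodule.coe_sub, Submodule.coe_smul] at h2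
  rw [val_sub, val_smul] at h2
  have h3 : val ν δ (((supp δ S).orthogonalProjection (δ x) : supp δ S) : H) v
      = if v = x then 1 else 0 := by
    rw [← val_delta hE x v, ← val_restr hE hv (δ x)]
    rfl
  rw [h3] at h2
  rw [← h2]
  congr 1
  exact (val_restr hE hv _).symm

open Classical in
theorem sol_unique (hE : IsEll2 ν δ) {T : H →L[ℂ] H} (hT : IsSelfAdjoint T) {S : Set V} {x : V}
    (hx : x ∈ S) {z : ℂ} (hz : z.im ≠ 0) {u : H} {c : ℂ} (h0 : ∀ v ∉ S, val ν δ u v = 0)
    (h1 : ∀ v ∈ S, val ν δ (T u) v - z * val ν δ u v = if v = x then c else 0) :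
    u = c • sol δ T S x z := by
  have hν : ∀ v, (ν v : ℂ) ≠ 0 := fun v => by exact_mod_cast (hE.pos v).ne'
  have hu : u ∈ supp δ S := by
    rw [mem_supp]
    intro v hv
    have := h0 v hv
    rw [val, div_eq_zero_iff] at this
    exact this.resolve_right (hν v)
  have hinj : ∀ φ ψ : supp δ S, (∀ v ∈ S, val ν δ (φ : H) v = val ν δ (ψ : H) v) → φ = ψ := by
    intro φ ψ h
    apply Subtype.ext
    apply ext_val hE
    intro v
    by_cases hv : v ∈ S
    · have := h v hv
      rw [val, val, div_left_inj' (hν v)] at this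
      exact this
    · rw [(mem_supp S _).mp φ.2 v hv, (mem_supp S _).mp ψ.2 v hv]
  have h2 : trunc δ T S ⟨u, hu⟩ - z • (⟨u, hu⟩ : supp δ S)
      = c • ((supp δ S).orthogonalProjection (δ x)) := by
    apply hinj
    intro v hv
    simp only [Submodule.coe_sub, Submodule.coe_smul]
    rw [val_sub, val_smul, val_smul]
    have e1 : val ν δ ((trunc δ T S ⟨u, hu⟩ : supp δ S) : H) v = val ν δ (T u) v :=
      val_restr hE hv _
    have e2 : val ν δ (((supp δ S).orthogonalProjection (δ x) : supp δ S) : H) v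
        = val ν δ (δ x) v := val_restr hE hv _
    rw [e1, e2, h1 v hv, val_delta hE]
    split_ifs <;> simp
  have h3 := eq_res (trunc_selfAdjoint (δ := δ) hT S) hz h2
  have h4 := congrArg (fun w : supp δ S => (w : H)) h3
  simp only [map_smul, Submodule.coe_smul] at h4
  exact h4

end Pool.Agent.Q183.GT
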